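import Mathlib

namespace Pool.Agent.Results.MP_99bf3a_gt.NoFanNotK

open Set Filter Topology Cardinal

/-- `k`-space: a set meeting every compact `K` in a relatively closed set is closed. -/
def IsK (X : Type) [TopologicalSpace X] : Prop :=
  ∀ C : Set X, (∀ K : Set X, IsCompact K → IsClosed (Subtype.val ⁻¹' C : Set K)) → IsClosed C

/-- Every compact set meets only finitely many members. -/
def CompactFinite {X L : Type} [TopologicalSpace X] (F : L → Set X) : Prop :=
  ∀ K : Set X, IsCompact K → {a | (F a ∩ K).Nonempty}.Finite

abbrev X := {x : Set ℝ → Bool // {i | x i = true}.Countable ∨ ∀ i, x i = true}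

def top : X := ⟨fun _ => true, Or.inr fun _ => rfl⟩

lemma ev (i : Set ℝ) : Continuous fun x : X => x.1 i :=
  (continuous_apply i).comp continuous_subtype_val

lemma clo (i : Set ℝ) : IsClopen {x : X | x.1 i = true} := (isClopen_discrete {true}).preimage (ev i)

lemma eq_top {x : X} {S : Set (Set ℝ)} (hS : ¬ S.Countable) (h : ∀ i ∈ S, x.1 i = true) : x = top :=
  Subtype.ext (funext (x.2.resolve_left fun hc => hS (hc.mono h)))

theorem result : ∃ (X : Type) (_ : TopologicalSpace X), T35Space X ∧
    (∀ (L : Type) (F : L → Set X), CompactFinite F → LocallyFinite F) ∧ ¬ IsK X := by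
  classical
  have unc : ¬ (range fun r : ℝ => ({r} : Set ℝ)).Countable := fun h =>
    not_countable_real ((countable_of_injective_of_countable_image (s := Set.univ)
      singleton_injective.injOn) (by rwa [image_univ]))
  refine ⟨X, inferInstance, inferInstance, fun L F h x => ⟨Set.univ, univ_mem,
    (show {a | (F a).Nonempty}.Finite from ?_).subset fun a ha => ha.left⟩, fun h => ?_⟩
  · by_contra hn
    let e := Set.Infinite.natEmbedding _ hn
    choose x hx using fun n => (e n).2
    let S := ⋃ n, {i | (x n).1 i = true ∧ x n ≠ top}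
    have sc : S.Countable := countable_iUnion fun n => by
      by_cases h : x n = top
      · simp [h]
      · exact ((x n).2.resolve_right fun a => h (Subtype.ext (funext a))).mono fun i hi => hi.1
    have : IsCompact {y : X | ∀ i ∉ S, y.1 i = false} := by
      rw [Subtype.isCompact_iff]
      have : Subtype.val '' {y : X | ∀ i ∉ S, y.1 i = false} = ⋂ i ∉ S, {y | y i = false} := by
        ext y
        simp only [mem_iInter, mem_ofPred_eq]
        refine ⟨by rintro ⟨y, hy, rfl⟩; exact hy, fun hy => ⟨⟨y, Or.inl (sc.mono fun i hi => ?_)⟩, hy, rfl⟩⟩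
        by_contra hn
        rw [mem_ofPred_eq, hy i hn] at hi
        exact Bool.noConfusion hi
      rw [this]
      exact (isClosed_biInter fun i _ =>
        (isClosed_discrete {false}).preimage (continuous_apply i)).isCompact
    refine infinite_of_injective_forall_mem (f := fun n => (e n).1)
      (Subtype.val_injective.comp e.injective) (fun n => ?_) (h _ (this.insert top))
    refine ⟨x n, hx n, ?_⟩
    by_cases h : x n = top
    · exact Or.inl h
    · exact Or.inr fun i hi => by
        by_contra h2
        exact hi (mem_iUnion.2 ⟨n, by simpa using h2, h⟩)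
  · have := h {top}ᶜ fun K hK => by
      have : ∀ b : Set ℝ, ∃ s : Finset ℝ, ∀ y ∈ K, (∀ r ∈ s, y.1 {r} = true) → y.1 b = true :=
        fun b => by
          obtain ⟨s, hs⟩ := (hK.diff (clo b).isOpen).elim_finite_subcover
            (fun r : ℝ => {y : X | y.1 {r} = true}ᶜ) (fun r => (clo _).compl.isOpen) fun y hy => by
              by_contra hn
              simp only [mem_iUnion, not_exists, mem_compl_iff, not_not] at hn
              exact hy.2 (eq_top unc (forall_mem_range.2 hn) ▸ rfl)
          refine ⟨s, fun y hy h => by_contra fun hn => ?_⟩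
          obtain ⟨r, r1, r2⟩ := mem_iUnion₂.1 (hs ⟨hy, hn⟩)
          exact r2 (h r r1)
      choose f hf using this
      have : Uncountable (Set ℝ) := singleton_injective.uncountable
      obtain ⟨s, hs⟩ := exists_uncountable_fiber f (by simp [cantor])
      rw [← isOpen_compl_iff, ← preimage_compl, compl_compl]
      have : (Subtype.val ⁻¹' {top} : Set K) = Subtype.val ⁻¹' ⋂ r ∈ s, {y : X | y.1 {r} = true} := by
        ext y
        simp only [mem_preimage, mem_singleton_iff, mem_iInter, mem_ofPred_eq]
        refine ⟨fun h _ _ => h ▸ rfl, fun h => eq_top (S := f ⁻¹' {s})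
          (fun hc => not_countable hc.to_subtype) fun b hb => hf b _ y.2 (hb ▸ h)⟩
      rw [this]
      exact (isOpen_biInter_finset fun r _ => (clo _).isOpen).preimage continuous_subtype_val
    rw [isClosed_compl_iff] at this
    obtain ⟨O, hO, e⟩ := isOpen_induced_iff.1 this
    obtain ⟨s, u, h1, h2⟩ := isOpen_pi_iff.1 hO top.1 (show top ∈ Subtype.val ⁻¹' O from e ▸ rfl)
    let y : X := ⟨fun i => decide (i ∈ s), Or.inl (s.countable_toSet.mono fun i hi => by simpa using hi)⟩
    have : y = top := show y ∈ ({top} : Set X) from e ▸ h2 fun i hi => by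
      simpa [y, top, Finset.mem_coe.1 hi] using (h1 i hi).2
    exact unc (s.countable_toSet.mono fun i _ => by simpa [y, top] using congrFun (congrArg Subtype.val this) i)

end Pool.Agent.Results.MP_99bf3a_gt.NoFanNotK
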